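import Mathlib
import Pool.Agent.H49.SSAux

/-!
If an `(ℓ,k,d)`-set exists then a self-similar `(ℓ,k,d)`-set exists.
-/

namespace Pool.Agent.Results.MP_ab9b99_an.SelfSimilarExists

open Pool.Agent.H49.SS

/-- **If an `(ℓ,k,d)`-set exists then a self-similar `(ℓ,k,d)`-set exists.** -/
theorem result (ℓ k d : ℕ) (hkd : k ≤ d)
    (h : ∃ K : Set (EuclideanSpace ℝ (Fin d)), IsLKDSet ℓ k d K) :
    ∃ K : Set (EuclideanSpace ℝ (Fin d)), IsLKDSet ℓ k d K ∧ IsSelfSimilar K :=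
  main ℓ k d hkd h

end Pool.Agent.Results.MP_ab9b99_an.SelfSimilarExists
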